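import Pool.Agent.Y957.VK.Stm3
import Pool.Agent.Y950.AD.Flow

/-!
Project VK, part 3: uniformly continuous functions, one factor, weights of logarithmic size.
Adaptation by helper768 of Pool/Agent/Y961/VK/UC.lean (helper961).
-/

set_option autoImplicit false

namespace Pool.Agent.Y768.VK

open Finset MeasureTheory Filter Topology
open Pool.Agent.Y957.VK
open Pool.Agent.Y957.AD (PolyVar)
open Pool.Agent.Y950.AD (polyVar_step)

/-- averages -/
noncomputable def Av (g : ℕ → ℂ) (A : ℝ → ℂ) (c α : ℝ) (N : ℕ) : ℂ :=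
  (1 / (N : ℂ)) * ∑ n ∈ Finset.Icc 1 N, g n * A (α * (n : ℝ) ^ c)

theorem av_sub (g : ℕ → ℂ) (C : ℝ) (hg : ∀ N : ℕ, ∑ n ∈ Finset.Icc 1 N, ‖g n‖ ≤ C * N)
    (hC : 0 ≤ C) (A B : ℝ → ℂ) (c α ε : ℝ) (hε : 0 ≤ ε)
    (h : ∀ t, ‖A t - B t‖ ≤ ε) (N : ℕ) : ‖Av g A c α N‖ ≤ ‖Av g B c α N‖ + C * ε := by
  have h1 : ‖Av g A c α N - Av g B c α N‖ ≤ C * ε := by
    have e : Av g A c α N - Av g B c α N = (1 / (N : ℂ)) *
        ∑ n ∈ Finset.Icc 1 N, g n * (A (α * (n : ℝ) ^ c) - B (α * (n : ℝ) ^ c)) := by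
      unfold Av
      rw [← mul_sub, ← Finset.sum_sub_distrib]
      congr 1
      exact Finset.sum_congr rfl fun n _ => by ring
    rw [e, norm_mul]
    have h2 : ‖∑ n ∈ Finset.Icc 1 N, g n * (A (α * (n : ℝ) ^ c) - B (α * (n : ℝ) ^ c))‖ ≤
        N * (C * ε) := by
      calc ‖∑ n ∈ Finset.Icc 1 N, g n * (A (α * (n : ℝ) ^ c) - B (α * (n : ℝ) ^ c))‖
          ≤ ∑ n ∈ Finset.Icc 1 N, ‖g n * (A (α * (n : ℝ) ^ c) - B (α * (n : ℝ) ^ c))‖ :=
            norm_sum_le _ _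
        _ ≤ ∑ n ∈ Finset.Icc 1 N, ‖g n‖ * ε := by
            refine Finset.sum_le_sum fun n _ => ?_
            rw [norm_mul]
            exact mul_le_mul_of_nonneg_left (h _) (norm_nonneg _)
        _ = (∑ n ∈ Finset.Icc 1 N, ‖g n‖) * ε := by rw [Finset.sum_mul]
        _ ≤ (C * N) * ε := mul_le_mul_of_nonneg_right (hg N) hε
        _ = N * (C * ε) := by ring
    rcases Nat.eq_zero_or_pos N with h0 | h0
    · subst h0
      simpa using mul_nonneg hC hε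
    · have hN : (0 : ℝ) < N := by exact_mod_cast h0
      rw [norm_div, norm_one, Complex.norm_natCast]
      calc 1 / (N : ℝ) * ‖∑ n ∈ Finset.Icc 1 N, g n * (A (α * (n : ℝ) ^ c) -
            B (α * (n : ℝ) ^ c))‖ ≤ 1 / (N : ℝ) * (N * (C * ε)) :=
            mul_le_mul_of_nonneg_left h2 (by positivity)
        _ = C * ε := by field_simp
  calc ‖Av g A c α N‖ = ‖Av g B c α N + (Av g A c α N - Av g B c α N)‖ := by
        congr 1
        ring
    _ ≤ ‖Av g B c α N‖ + ‖Av g A c α N - Av g B c α N‖ := norm_add_le _ _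
    _ ≤ ‖Av g B c α N‖ + C * ε := by linarith

theorem av_approx (g : ℕ → ℂ) (C : ℝ) (hg : ∀ N : ℕ, ∑ n ∈ Finset.Icc 1 N, ‖g n‖ ≤ C * N)
    (hC : 0 < C) (A : ℝ → ℂ) (c α : ℝ)
    (h : ∀ ε : ℝ, 0 < ε → ∃ B : ℝ → ℂ, (∀ t, ‖A t - B t‖ ≤ ε) ∧
      Tendsto (Av g B c α) atTop (𝓝 0)) : Tendsto (Av g A c α) atTop (𝓝 0) := by
  rw [Metric.tendsto_atTop]
  intro ε hε
  have hε' : 0 < ε / (2 * C) := by positivity
  obtain ⟨B, hB, ht⟩ := h (ε / (2 * C)) hε'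
  obtain ⟨N0, hN0⟩ := Metric.tendsto_atTop.mp ht (ε / 2) (half_pos hε)
  refine ⟨N0, fun N hN => ?_⟩
  have h1 := hN0 N hN
  rw [dist_zero_right] at h1 ⊢
  have h2 := av_sub g C hg hC.le A B c α (ε / (2 * C)) hε'.le hB N
  have h3 : C * (ε / (2 * C)) = ε / 2 := by field_simp
  rw [h3] at h2
  linarith

/-- the half line -/
theorem uc_half (h : S_WALL) (g : ℕ → ℂ) (hg : ∀ n : ℕ, ‖g n‖ ≤ Real.log (n + 3)) (C : ℝ)
    (hC : ∀ N : ℕ, ∑ n ∈ Finset.Icc 1 N, ‖g n‖ ≤ C * N) (hC0 : 0 < C) (hneg : Neg g)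
    (A : ℝ → ℂ) (M : ℝ)
    (hM : ∀ t, ‖A t‖ ≤ M)
    (huc : ∀ ε : ℝ, 0 < ε → ∃ δ : ℝ, 0 < δ ∧ ∀ t s : ℝ, 0 ≤ s → s < δ → ‖A (t + s) - A t‖ ≤ ε)
    (c : ℝ) (hc : 0 < c) :
    ∀ᵐ α ∂(volume.restrict (Set.Ioi (0 : ℝ))), Tendsto (Av g A c α) atTop (𝓝 0) := by
  have hM0 : 0 ≤ M := (norm_nonneg _).trans (hM 0)
  have hstep : ∀ᵐ α ∂(volume.restrict (Set.Ioi (0 : ℝ))), ∀ q : ℕ,
      Tendsto (Av g (fun t => A ((⌊((q : ℝ) + 1) * t⌋ : ℝ) / ((q : ℝ) + 1))) c α) atTop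
        (𝓝 0) := by
    rw [ae_all_iff]
    intro q
    have hB0 : 0 < M + 1 := by positivity
    have hBc : ((M + 1 : ℝ) : ℂ) ≠ 0 := by exact_mod_cast hB0.ne'
    have hq0 : (0 : ℝ) < (q : ℝ) + 1 := by positivity
    obtain ⟨k, hk⟩ : ∃ k : ℝ → ℤ, ∀ t, k t = ⌊((q : ℝ) + 1) * t⌋ := ⟨_, fun _ => rfl⟩
    obtain ⟨G, hG⟩ : ∃ G : ℤ → ℂ, ∀ n, G n = A ((n : ℝ) / ((q : ℝ) + 1)) / ((M + 1 : ℝ) : ℂ) :=
      ⟨_, fun _ => rfl⟩
    have hG1 : ∀ n, ‖G n‖ ≤ 1 := by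
      intro n
      rw [hG, norm_div, Complex.norm_real, Real.norm_eq_abs, abs_of_pos hB0, div_le_one hB0]
      have := hM ((n : ℝ) / ((q : ℝ) + 1))
      linarith
    have hkm : Monotone k := fun s t hst => by
      rw [hk, hk]
      exact Int.floor_le_floor (mul_le_mul_of_nonneg_left hst hq0.le)
    have hpv : PolyVar (fun t => G (k t)) := by
      refine polyVar_step k hkm ((q : ℝ) + 1) 1 one_pos (fun Y hY => ?_) G hG1
      have e0 : k 0 = 0 := by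
        rw [hk]
        simp
      rw [e0, hk, Real.rpow_one]
      have := Int.floor_le (((q : ℝ) + 1) * Y)
      push_cast
      linarith
    have hkmeas : Measurable k := by
      have e : k = fun t => ⌊((q : ℝ) + 1) * t⌋ := funext hk
      rw [e]
      exact Int.measurable_floor.comp (measurable_id.const_mul _)
    have hmeas : Measurable (fun t => G (k t)) := (measurable_of_countable G).comp hkmeas
    have hA := h g hg hneg 1 (fun _ t => G (k t)) (fun _ t => hG1 _) (fun _ => hmeas)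
      (fun _ => hpv) (fun _ => c) (fun _ => hc)
    have hms : MeasurableSet {α : Fin 1 → ℝ | ∀ i, 0 < α i} := by
      rw [Set.ofPred_forall]
      exact MeasurableSet.iInter fun i => measurableSet_lt measurable_const (measurable_pi_apply i)
    rw [ae_restrict_iff' hms] at hA
    have h2 := (volume_preserving_funUnique (Fin 1) ℝ).symm.quasiMeasurePreserving.ae hA
    rw [ae_restrict_iff' measurableSet_Ioi]
    filter_upwards [h2] with α hα hα0
    have e : ∀ i, (MeasurableEquiv.funUnique (Fin 1) ℝ).symm α i = α := by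
      intro i
      rw [Subsingleton.elim i default]
      exact (MeasurableEquiv.funUnique (Fin 1) ℝ).apply_symm_apply α
    have h3 := hα (fun i => by rw [e]; exact hα0) 0
    simp only [e, pow_zero, Fin.prod_univ_one] at h3
    have h4 := h3.const_mul (M + 1)
    rw [mul_zero] at h4
    rw [tendsto_zero_iff_norm_tendsto_zero]
    refine h4.congr fun N => ?_
    have h5 : Av g (fun t => A ((⌊((q : ℝ) + 1) * t⌋ : ℝ) / ((q : ℝ) + 1))) c α N =
        ((M + 1 : ℝ) : ℂ) * ((1 / (N : ℂ)) * ∑ n ∈ Finset.Icc 1 N, g n * G (k (α * (n : ℝ) ^ c))) := by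
      unfold Av
      rw [mul_left_comm, Finset.mul_sum _ _ ((M + 1 : ℝ) : ℂ)]
      congr 1
      refine Finset.sum_congr rfl fun n _ => ?_
      rw [hG, hk]
      field_simp
    rw [h5, norm_mul, norm_mul, norm_div, norm_one, Complex.norm_natCast, Complex.norm_real,
      Real.norm_eq_abs, abs_of_pos hB0]
  filter_upwards [hstep] with α hα
  refine av_approx g C hC hC0 _ c α fun ε hε => ?_
  obtain ⟨δ, hδ, hun⟩ := huc ε hε
  obtain ⟨q, hq⟩ := exists_nat_one_div_lt hδ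
  refine ⟨_, fun t => ?_, hα q⟩
  have hq0 : (0 : ℝ) < (q : ℝ) + 1 := by positivity
  obtain ⟨s, hs⟩ : ∃ s : ℝ, s = t - (⌊((q : ℝ) + 1) * t⌋ : ℝ) / ((q : ℝ) + 1) := ⟨_, rfl⟩
  have hs0 : 0 ≤ s := by
    rw [hs, sub_nonneg, div_le_iff₀ hq0]
    have := Int.floor_le (((q : ℝ) + 1) * t)
    linarith
  have hs1 : s < δ := by
    refine lt_trans ?_ hq
    rw [hs, sub_lt_iff_lt_add, ← add_div, lt_div_iff₀ hq0]
    have := Int.lt_floor_add_one (((q : ℝ) + 1) * t)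
    linarith
  have h1 := hun ((⌊((q : ℝ) + 1) * t⌋ : ℝ) / ((q : ℝ) + 1)) s hs0 hs1
  have e1 : (⌊((q : ℝ) + 1) * t⌋ : ℝ) / ((q : ℝ) + 1) + s = t := by
    rw [hs]
    ring
  rw [e1] at h1
  exact h1

/-- **WUC.** -/
theorem wuc (h : S_WALL) : S_WUC := by
  intro g hg hCex hneg A M hM huc c hc
  obtain ⟨C', hC'⟩ := hCex
  obtain ⟨C, hC0, hC⟩ : ∃ C : ℝ, 0 < C ∧ ∀ N : ℕ, ∑ n ∈ Finset.Icc 1 N, ‖g n‖ ≤ C * N := by
    refine ⟨|C'| + 1, by positivity, fun N => (hC' N).trans ?_⟩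
    refine mul_le_mul_of_nonneg_right ?_ (Nat.cast_nonneg N)
    linarith [le_abs_self C']
  have h1 := uc_half h g hg C hC hC0 hneg A M hM huc c hc
  have h2 := uc_half h g hg C hC hC0 hneg (fun t => A (-t)) M (fun t => hM _) (fun ε hε => by
    obtain ⟨δ, hδ, h⟩ := huc ε hε
    refine ⟨δ, hδ, fun t s hs hsδ => ?_⟩
    have h3 := h (-(t + s)) s hs hsδ
    rw [norm_sub_rev]
    have e : -(t + s) + s = -t := by ring
    rw [e] at h3
    exact h3) c hc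
  rw [ae_restrict_iff' measurableSet_Ioi] at h1 h2
  have h3 : ∀ᵐ α : ℝ, -α ∈ Set.Ioi (0 : ℝ) →
      Tendsto (Av g (fun t => A (-t)) c (-α)) atTop (𝓝 0) :=
    (Measure.measurePreserving_neg (volume : Measure ℝ)).quasiMeasurePreserving.ae h2
  have h4 : ∀ᵐ α : ℝ, α ≠ 0 := by
    rw [ae_iff]
    simp
  filter_upwards [h1, h3, h4] with α ha hb hc'
  show Tendsto (Av g A c α) atTop (𝓝 0)
  rcases lt_or_gt_of_ne hc' with h | h
  · refine (hb (by simpa using h)).congr fun N => ?_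
    unfold Av
    refine congrArg _ (Finset.sum_congr rfl fun n _ => ?_)
    have e : -(-α * (n : ℝ) ^ c) = α * (n : ℝ) ^ c := by ring
    simp only [e]
  · exact ha h

end Pool.Agent.Y768.VK
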